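import Pool.Agent.N557.CV.Stm

set_option autoImplicit false

namespace Pool.Agent.N551.CV

open Pool.Agent.N557.CV
open scoped ENNReal

theorem t_cnt : S_CNT := by
  intro G _ a b n m ξ x
  classical
  unfold cv cnt
  have h1 : ∀ y : G, (∑ i ∈ Finset.range n, ∑ j ∈ Finset.range m,
      if a ^ i * b ^ j = x * y⁻¹ then (1 : ℝ≥0∞) else 0) * ξ y =
      ∑ i ∈ Finset.range n, ∑ j ∈ Finset.range m,
        (if y = (b ^ j)⁻¹ * ((a ^ i)⁻¹ * x) then ξ y else 0) := by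
    intro y
    rw [Finset.sum_mul]
    refine Finset.sum_congr rfl fun i _ => ?_
    rw [Finset.sum_mul]
    refine Finset.sum_congr rfl fun j _ => ?_
    have h2 : (a ^ i * b ^ j = x * y⁻¹) ↔ (y = (b ^ j)⁻¹ * ((a ^ i)⁻¹ * x)) := by
      constructor
      · intro h
        rw [eq_mul_inv_iff_mul_eq] at h
        rw [← h]
        group
      · intro h
        rw [h]
        group
    by_cases h3 : y = (b ^ j)⁻¹ * ((a ^ i)⁻¹ * x)
    · rw [if_pos h3, if_pos (h2.2 h3), one_mul]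
    · rw [if_neg h3, if_neg (fun h => h3 (h2.1 h)), zero_mul]
  have h0 : ∀ y : G, (∑ i ∈ Finset.range n, ∑ j ∈ Finset.range m,
      if a ^ i * b ^ j = x * y⁻¹ then (1 : ℝ≥0∞) else 0) * ξ y =
      (∑ i ∈ Finset.range n, ∑ j ∈ Finset.range m,
        (if y = (b ^ j)⁻¹ * ((a ^ i)⁻¹ * x) then ξ y else 0)) := h1
  calc ∑' y, (∑ i ∈ Finset.range n, ∑ j ∈ Finset.range m,
      if a ^ i * b ^ j = x * y⁻¹ then (1 : ℝ≥0∞) else 0) * ξ y
      = ∑' y, ∑ i ∈ Finset.range n, ∑ j ∈ Finset.range m,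
        (if y = (b ^ j)⁻¹ * ((a ^ i)⁻¹ * x) then ξ y else 0) := tsum_congr h0
    _ = ∑ i ∈ Finset.range n, ∑' y, ∑ j ∈ Finset.range m,
        (if y = (b ^ j)⁻¹ * ((a ^ i)⁻¹ * x) then ξ y else 0) :=
        Summable.tsum_finsetSum (fun i _ => ENNReal.summable)
    _ = ∑ i ∈ Finset.range n, ∑ j ∈ Finset.range m, ξ ((b ^ j)⁻¹ * ((a ^ i)⁻¹ * x)) := by
        refine Finset.sum_congr rfl fun i _ => ?_
        rw [Summable.tsum_finsetSum (fun j _ => ENNReal.summable)]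
        refine Finset.sum_congr rfl fun j _ => ?_
        rw [tsum_eq_single ((b ^ j)⁻¹ * ((a ^ i)⁻¹ * x))]
        · rw [if_pos rfl]
        · intro y hy
          rw [if_neg hy]

end Pool.Agent.N551.CV
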